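import Pool.Agent.H13.EDM.TargetsB

/-!
Board edm_modules, row NM3: the choice of the scale for forward orbits (strong form).
-/

set_option autoImplicit false

open MvPolynomial
open Pool.Agent.H8.TD (lc dg Wsp)
open Pool.Agent.H13.EDM

namespace Pool.Agent.H11.EDM

theorem nm_one_le {C μ' : ℝ} (f : ℕ → ℝ) (h0 : 0 ≤ μ') (h1 : ∀ m, 1 ≤ f m)
    (h2 : ∀ m, f m ≤ C * μ' ^ m) : 1 ≤ μ' := by
  by_contra h
  push Not at h
  obtain ⟨m, hm⟩ := exists_pow_lt_of_lt_one (show (0 : ℝ) < 1 / (|C| + 1) by positivity) h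
  have e1 := (h1 m).trans (h2 m)
  have e2 : C * μ' ^ m ≤ (|C| + 1) * μ' ^ m :=
    mul_le_mul_of_nonneg_right ((le_abs_self C).trans (by linarith)) (pow_nonneg h0 m)
  have e3 : (|C| + 1) * μ' ^ m < 1 := by
    rw [lt_div_iff₀ (by positivity)] at hm
    linarith
  linarith

theorem pf_NM3 (hSEQ : T_SEQ) (hNM2 : T_NM2) : T_NM3 := by
  intro N a C μ μ' k K _ _ _ _ τ ξ htr hadj hN hμ0 hμ h3 h1
  obtain ⟨-, s0, -, s1, s2, s3, s4⟩ := hSEQ N a k K τ ξ htr hadj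
  have p1 : ∀ j m, (1 : ℝ) ≤ dj k N τ ξ j m := fun j m => by exact_mod_cast s1 j m
  have hμ1 : 1 ≤ μ' := nm_one_le (fun m => (dj k N τ ξ 3 m : ℝ)) hμ0 (fun m => p1 3 m) h3
  have hF : (1 : ℝ) ≤ (N.factorial : ℝ) ^ N := by
    have : 1 ≤ N.factorial ^ N := Nat.one_le_pow _ _ (Nat.factorial_pos N)
    exact_mod_cast this
  have hC0 : (0 : ℝ) ≤ |C| := abs_nonneg C
  set C' : ℝ := |C| + 2 * (N.factorial : ℝ) ^ N with hC'
  have c1 : 1 ≤ C' := by linarith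
  have c2 : 2 ≤ C' := by linarith
  have c3 : (N.factorial : ℝ) ^ N ≤ C' := by linarith
  have c4 : C ≤ C' := (le_abs_self C).trans (by linarith)
  have key := hNM2 N (fun j m => (dj k N τ ξ j m : ℝ)) (fun j m => (wj k N τ ξ j m : ℝ)) C'
    (dj k N τ ξ 0 0 : ℝ) 1 μ μ' 1 hN c1 (lt_of_lt_of_le one_pos (p1 0 0)) one_pos
    (fun j _ m => lt_of_lt_of_le one_pos (p1 j m)) (fun m => by exact_mod_cast s0 m) ?_ ?_ ?_ ?_
    hμ0 hμ le_rfl (lt_of_le_of_lt hμ1 hμ) ?_ ?_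
  · simpa only [mul_one] using key
  · intro j m hj
    have e : (dj k N τ ξ j m : ℝ) * dj k N τ ξ (j + 2) m ≤ 2 * (dj k N τ ξ (j + 1) m : ℝ) ^ 2 := by
      exact_mod_cast s2 j m hj
    exact e.trans (mul_le_mul_of_nonneg_right c2 (by positivity))
  · intro j hj m m'
    have e : (dj k N τ ξ j (m + m') : ℝ) ≤
        (N.factorial : ℝ) ^ N * ((dj k N τ ξ j m : ℝ) * dj k N τ ξ j m') := by
      exact_mod_cast s3 j m m' hj
    exact e.trans (mul_le_mul_of_nonneg_right c3 (by positivity))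
  · intro j hj m
    have e : (wj k N τ ξ j m : ℝ) ≤
        (N.factorial : ℝ) ^ N * ((dj k N τ ξ j m : ℝ) * dj k N τ ξ (j + 1) m) := by
      exact_mod_cast s4 j m hj
    exact e.trans (mul_le_mul_of_nonneg_right c3 (by positivity))
  · intro j _ m
    rw [one_pow]
    have := p1 j m
    nlinarith
  · intro m
    exact (h3 m).trans (mul_le_mul_of_nonneg_right c4 (pow_nonneg hμ0 m))
  · intro M
    obtain ⟨m, hm, e⟩ := h1 M
    exact ⟨m, hm, e.trans (mul_le_mul_of_nonneg_right c4 (by positivity))⟩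

end Pool.Agent.H11.EDM
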